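import Mathlib

set_option autoImplicit false

/-!
# Zero sets of real polynomials are null sets
-/

namespace Pool.Agent.Q225.Hol

open MeasureTheory

theorem fin_null (n : ℕ) : ∀ P : MvPolynomial (Fin n) ℝ, P ≠ 0 →
    volume {y : Fin n → ℝ | MvPolynomial.eval y P = 0} = 0 := by
  induction n with
  | zero =>
    intro P hP
    have : {y : Fin 0 → ℝ | MvPolynomial.eval y P = 0} = ∅ := by
      ext y
      simp only [Set.mem_ofPred_eq, Set.mem_empty_iff_false, iff_false]
      intro h
      apply hP
      apply MvPolynomial.funext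
      intro z
      rw [Subsingleton.elim z y, h, map_zero]
    rw [this, measure_empty]
  | succ n ih =>
    intro P hP
    set f := MvPolynomial.finSuccEquiv ℝ n P with hf
    have hf0 : f ≠ 0 := by
      rw [hf]; exact (map_ne_zero_iff _ (MvPolynomial.finSuccEquiv ℝ n).injective).2 hP
    obtain ⟨m, hm⟩ : ∃ m, f.coeff m ≠ 0 := by
      by_contra hcon
      push Not at hcon
      exact hf0 (Polynomial.ext (by simpa using hcon))
    have hnull := ih (f.coeff m) hm
    set S := {y : Fin (n + 1) → ℝ | MvPolynomial.eval y P = 0} with hS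
    set S' := {z : ℝ × (Fin n → ℝ) | MvPolynomial.eval (Fin.cons z.1 z.2 : Fin (n + 1) → ℝ) P = 0}
      with hS'
    have hcont : Continuous (fun z : ℝ × (Fin n → ℝ) =>
        MvPolynomial.eval (Fin.cons z.1 z.2 : Fin (n + 1) → ℝ) P) := by
      refine (MvPolynomial.continuous_eval P).comp ?_
      refine continuous_pi ?_
      intro i
      refine Fin.cases ?_ (fun i => ?_) i
      · simp only [Fin.cons_zero]; fun_prop
      · simp only [Fin.cons_succ]; fun_prop
    have hmeas : MeasurableSet S' := (isClosed_singleton.preimage hcont).measurableSet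
    have hpre : S = (MeasurableEquiv.piFinSuccAbove (fun _ => ℝ) 0) ⁻¹' S' := by
      ext y
      simp only [hS, hS', Set.mem_ofPred_eq, Set.mem_preimage]
      have : (Fin.cons ((MeasurableEquiv.piFinSuccAbove (fun _ => ℝ) 0) y).1
          ((MeasurableEquiv.piFinSuccAbove (fun _ => ℝ) 0) y).2 :
          Fin (n + 1) → ℝ) = y := by
        funext j
        refine Fin.cases ?_ (fun j => ?_) j
        · rfl
        · rfl
      rw [this]
    rw [hpre, (volume_preserving_piFinSuccAbove (fun _ => ℝ) 0).measure_preimage_equiv]
    have hswap : volume S' = (volume : Measure ((Fin n → ℝ) × ℝ)) (Prod.swap ⁻¹' S') := by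
      have := (Measure.measurePreserving_swap (μ := (volume : Measure (Fin n → ℝ)))
        (ν := (volume : Measure ℝ))).measure_preimage hmeas.nullMeasurableSet
      exact this.symm
    rw [hswap, Measure.volume_eq_prod, Measure.measure_prod_null (measurable_swap hmeas)]
    have hae : ∀ᵐ y : Fin n → ℝ, y ∉ {y : Fin n → ℝ |
        MvPolynomial.eval y (f.coeff m) = 0} := measure_eq_zero_iff_ae_notMem.1 hnull
    filter_upwards [hae] with y hy
    have hy' : MvPolynomial.eval y (f.coeff m) ≠ 0 := hy
    have hmap : f.map (MvPolynomial.eval y) ≠ 0 := by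
      intro h0
      apply hy'
      have := congrArg (fun q => Polynomial.coeff q m) h0
      simpa [Polynomial.coeff_map] using this
    have hfin : (Prod.mk y ⁻¹' (Prod.swap ⁻¹' S')).Finite := by
      refine Set.Finite.subset (Polynomial.rootSet_finite
        (f.map (MvPolynomial.eval y)) ℝ) ?_
      intro a ha
      rw [Polynomial.mem_rootSet]
      refine ⟨hmap, ?_⟩
      have h1 := MvPolynomial.eval_eq_eval_mv_eval' y a P
      rw [Polynomial.coe_aeval_eq_eval, ← hf] at *
      rw [← h1]
      exact ha
    exact hfin.measure_zero volume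

theorem poly_null {σ : Type} [Fintype σ] (P : MvPolynomial σ ℝ) (hP : P ≠ 0) :
    volume {y : σ → ℝ | MvPolynomial.eval y P = 0} = 0 := by
  set e := Fintype.equivFin σ with he
  set P' := MvPolynomial.rename e P with hP'
  have hP'0 : P' ≠ 0 := by
    rw [hP']
    exact (map_ne_zero_iff _ (MvPolynomial.rename_injective _ e.injective)).2 hP
  have h1 := fin_null _ P' hP'0
  have h2 := volume_measurePreserving_piCongrLeft (fun _ : Fin (Fintype.card σ) => ℝ) e
  have hpre : {y : σ → ℝ | MvPolynomial.eval y P = 0} =
      (MeasurableEquiv.piCongrLeft (fun _ : Fin (Fintype.card σ) => ℝ) e) ⁻¹'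
        {y : Fin (Fintype.card σ) → ℝ | MvPolynomial.eval y P' = 0} := by
    ext y
    simp only [Set.mem_ofPred_eq, Set.mem_preimage]
    rw [hP', MvPolynomial.eval_rename]
    have : (((MeasurableEquiv.piCongrLeft (fun _ : Fin (Fintype.card σ) => ℝ) e) y) ∘ e) = y := by
      funext j
      simp only [Function.comp_apply]
      exact Equiv.piCongrLeft_apply_apply (fun _ => ℝ) e y j
    rw [this]
  rw [hpre, h2.measure_preimage_equiv]
  exact h1

end Pool.Agent.Q225.Hol
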